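import Pool.Agent.N352.PJ.Def

/-!
# PJ/ON: the order of the orthogonal group over a finite field (project PJ of helper352)

Author of this file: helper697.
-/

set_option autoImplicit false
set_option linter.all false

open Matrix
open scoped Classical

namespace Pool.Agent.N697.PJ

section abst

variable {F : Type} [Field F]

/-- A quadratic space of dimension `2 g + 1` over a finite field together with bounds. -/
structure QP {V : Type} [AddCommGroup V] [Module F V] (B : V →ₗ[F] V →ₗ[F] F) (g : ℕ) :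
    Prop where
  fin : Finite V
  nd : ∀ x, (∀ y, B x y = 0) → x = 0
  card : Nat.card V = Nat.card F ^ (2 * g + 1)
  iso : Nat.card {x : V // B x x = 0} ≤ Nat.card F ^ (2 * g)
  grp : Nat.card {f : V →ₗ[F] V // ∀ x y, B (f x) (f y) = B x y} ≤
    2 * Nat.card F ^ (g * (2 * g + 1))

theorem hyp_card [Finite F] (h2 : (2 : F) ≠ 0) {V : Type} [AddCommGroup V] [Module F V]
    [Finite V] (B : V →ₗ[F] V →ₗ[F] F) (hs : ∀ x y, B x y = B y x) :
    Nat.card {p : V × V // B p.1 p.1 = 0 ∧ B p.2 p.2 = 0 ∧ B p.1 p.2 = 1} *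
      (Nat.card F * Nat.card F) ≤ Nat.card {x : V // B x x = 0} * Nat.card V := by
  classical
  let y0 : V → V := fun x => if h : ∃ y, B y y = 0 ∧ B x y = 1 then h.choose else 0
  have hy0 : ∀ x y, B y y = 0 → B x y = 1 → B x (y0 x) = 1 := by
    intro x y h1 h3
    have h : ∃ y, B y y = 0 ∧ B x y = 1 := ⟨y, h1, h3⟩
    have : y0 x = h.choose := by simp only [y0, dif_pos h]
    rw [this]
    exact h.choose_spec.2
  rw [← Nat.card_prod, ← Nat.card_prod, ← Nat.card_prod]
  refine Nat.card_le_card_of_injective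
    (fun q : {p : V × V // B p.1 p.1 = 0 ∧ B p.2 p.2 = 0 ∧ B p.1 p.2 = 1} × F × F =>
      ((⟨q.1.1.1, q.1.2.1⟩, q.1.1.2 + q.2.1 • q.1.1.1 + q.2.2 • y0 q.1.1.1) :
        {x : V // B x x = 0} × V)) ?_
  rintro ⟨⟨⟨x, y⟩, hx, hy, hxy⟩, l, c⟩ ⟨⟨⟨x', y'⟩, hx', hy', hxy'⟩, l', c'⟩ h
  simp only [Prod.mk.injEq, Subtype.mk.injEq] at h hx hy hxy hx' hy' hxy'
  obtain ⟨rfl, h⟩ := h
  have hc0 := hy0 x y hy hxy
  have hc : c = c' := by
    have := congrArg (B x) h
    simp only [map_add, map_smul, smul_eq_mul, hx, hxy, hxy', hc0, mul_zero, add_zero,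
      mul_one] at this
    exact add_left_cancel this
  subst hc
  have h1 : y + l • x = y' + l' • x := add_right_cancel h
  have hl : l = l' := by
    have h3 : B (y + l • x) (y + l • x) = B (y' + l' • x) (y' + l' • x) := by rw [h1]
    have e1 : B y x = 1 := by rw [hs]; exact hxy
    have e2 : B y' x = 1 := by rw [hs]; exact hxy'
    simp only [map_add, map_smul, LinearMap.add_apply, LinearMap.smul_apply, smul_eq_mul, hx, hy,
      hy', hxy, hxy', e1, e2, mul_zero, add_zero, mul_one, zero_add] at h3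
    have h4 : 2 * l = 2 * l' := by linear_combination h3
    exact mul_left_cancel₀ h2 h4
  subst hl
  have h5 : y = y' := add_right_cancel h1
  subst h5
  rfl

theorem step [Finite F] (h2 : (2 : F) ≠ 0) {V W : Type} [AddCommGroup V] [Module F V]
    [AddCommGroup W] [Module F W] (B : V →ₗ[F] V →ₗ[F] F) (BW : W →ₗ[F] W →ₗ[F] F) (g : ℕ)
    (hW : QP BW g) (hs : ∀ x y, B x y = B y x) (e f : V) (i : W →ₗ[F] V)
    (he : B e e = 0) (hf : B f f = 0) (hef : B e f = 1)
    (hi : ∀ w w', B (i w) (i w') = BW w w') (hei : ∀ w, B e (i w) = 0)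
    (hfi : ∀ w, B f (i w) = 0) (hsp : ∀ v : V, ∃ (a b : F) (w : W), v = a • e + b • f + i w) :
    QP B (g + 1) := by
  classical
  haveI := hW.fin
  have hfe : B f e = 1 := by rw [hs]; exact hef
  have hie : ∀ w, B (i w) e = 0 := fun w => by rw [hs]; exact hei w
  have hif : ∀ w, B (i w) f = 0 := fun w => by rw [hs]; exact hfi w
  -- the linear equivalence
  let φ0 : (F × F × W) →ₗ[F] V :=
    (LinearMap.toSpanSingleton F V e).coprod ((LinearMap.toSpanSingleton F V f).coprod i)
  have hφ0 : ∀ a b w, φ0 (a, b, w) = a • e + (b • f + i w) := by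
    intro a b w
    simp [φ0]
  have hBe : ∀ a b w, B e (φ0 (a, b, w)) = b := by
    intro a b w
    rw [hφ0]
    simp only [map_add, map_smul, smul_eq_mul, he, hef, hei, mul_zero, mul_one, zero_add, add_zero]
  have hBf : ∀ a b w, B f (φ0 (a, b, w)) = a := by
    intro a b w
    rw [hφ0]
    simp only [map_add, map_smul, smul_eq_mul, hf, hfe, hfi, mul_zero, mul_one, zero_add, add_zero]
  have hBi : ∀ a b w w', B (i w') (φ0 (a, b, w)) = BW w' w := by
    intro a b w w'
    rw [hφ0]
    simp only [map_add, map_smul, smul_eq_mul, hie, hif, hi, mul_zero, mul_one, zero_add, add_zero]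
  have hBB : ∀ a b w, B (φ0 (a, b, w)) (φ0 (a, b, w)) = 2 * a * b + BW w w := by
    intro a b w
    have h1 : B (φ0 (a, b, w)) (φ0 (a, b, w)) =
        B (a • e + (b • f + i w)) (φ0 (a, b, w)) := by rw [hφ0]
    rw [h1]
    simp only [map_add, map_smul, smul_eq_mul, LinearMap.add_apply, LinearMap.smul_apply, hBe,
      hBf, hBi]
    ring
  have hinj : Function.Injective φ0 := by
    rw [injective_iff_map_eq_zero]
    rintro ⟨a, b, w⟩ h
    have h1 := hBe a b w
    have h3 := hBf a b w
    rw [h, map_zero] at h1 h3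
    have h4 : w = 0 := by
      apply hW.nd
      intro y
      have h5 := hBi a b w y
      rw [h, map_zero] at h5
      have h6 : BW w y = BW y w := by rw [← hi, ← hi, hs]
      rw [h6, ← h5]
    rw [← h1, ← h3, h4]
    rfl
  have hsur : Function.Surjective φ0 := by
    intro v
    obtain ⟨a, b, w, h⟩ := hsp v
    exact ⟨(a, b, w), by rw [hφ0, h, add_assoc]⟩
  let φ : (F × F × W) ≃ₗ[F] V := LinearEquiv.ofBijective φ0 ⟨hinj, hsur⟩
  have hφ : ∀ p, φ p = φ0 p := fun p => rfl
  haveI : Finite V := Finite.of_equiv _ φ.toEquiv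
  have hcard : Nat.card V = Nat.card F ^ (2 * (g + 1) + 1) := by
    rw [← Nat.card_congr φ.toEquiv, Nat.card_prod, Nat.card_prod, hW.card]
    ring
  have hnd : ∀ x, (∀ y, B x y = 0) → x = 0 := by
    intro x hx
    obtain ⟨⟨a, b, w⟩, rfl⟩ := hsur x
    have h1 : b = 0 := by rw [← hBe a b w, hs]; exact hx _
    have h3 : a = 0 := by rw [← hBf a b w, hs]; exact hx _
    have h4 : w = 0 := by
      apply hW.nd
      intro y
      have h6 : BW w y = BW y w := by rw [← hi, ← hi, hs]
      rw [h6, ← hBi a b w y, hs]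
      exact hx _
    rw [h1, h3, h4]
    exact map_zero φ0
  have hQ : 0 < Nat.card F := Nat.card_pos
  have hiso : Nat.card {x : V // B x x = 0} ≤ Nat.card F ^ (2 * (g + 1)) := by
    have h1 : Nat.card {x : V // B x x = 0} =
        Nat.card {p : F × F × W // 2 * p.1 * p.2.1 + BW p.2.2 p.2.2 = 0} := by
      symm
      refine Nat.card_congr (Equiv.subtypeEquiv φ.toEquiv ?_)
      rintro ⟨a, b, w⟩
      have := hBB a b w
      constructor
      · intro h
        exact this.trans h
      · intro h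
        exact this.symm.trans h
    rw [h1]
    have h3 : Nat.card {p : F × F × W // 2 * p.1 * p.2.1 + BW p.2.2 p.2.2 = 0} ≤
        Nat.card (({a : F // a ≠ 0} × W) ⊕ (F × {w : W // BW w w = 0})) := by
      refine Nat.card_le_card_of_injective (fun p =>
        if h : p.1.1 = 0 then Sum.inr (p.1.2.1, ⟨p.1.2.2, by
          have := p.2
          rw [h] at this
          simpa using this⟩) else Sum.inl (⟨p.1.1, h⟩, p.1.2.2)) ?_
      rintro ⟨⟨a, b, w⟩, hp⟩ ⟨⟨a', b', w'⟩, hp'⟩ h
      simp only at hp hp' h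
      by_cases ha : a = 0 <;> by_cases ha' : a' = 0
      · rw [dif_pos ha, dif_pos ha'] at h
        simp only [Sum.inr.injEq, Prod.mk.injEq, Subtype.mk.injEq] at h
        obtain ⟨h, h'⟩ := h
        simp only [Subtype.mk.injEq, Prod.mk.injEq]
        exact ⟨ha.trans ha'.symm, h, h'⟩
      · rw [dif_pos ha, dif_neg ha'] at h
        exact absurd h (by simp)
      · rw [dif_neg ha, dif_pos ha'] at h
        exact absurd h (by simp)
      · rw [dif_neg ha, dif_neg ha'] at h
        simp only [Sum.inl.injEq, Prod.mk.injEq, Subtype.mk.injEq] at h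
        obtain ⟨h, h'⟩ := h
        subst h
        subst h'
        simp only [Subtype.mk.injEq, Prod.mk.injEq, true_and, and_true]
        have h5 : (2 * a) * b = (2 * a) * b' := by linear_combination hp - hp'
        exact mul_left_cancel₀ (mul_ne_zero h2 ha) h5
    refine h3.trans ?_
    rw [Nat.card_sum, Nat.card_prod, Nat.card_prod, hW.card]
    have h4 : Nat.card {a : F // a ≠ 0} + 1 = Nat.card F := by
      have h6 : Nat.card {a : F // a ≠ 0} + Nat.card {a : F // ¬ (a ≠ 0)} = Nat.card F := by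
        rw [← Nat.card_sum]
        exact Nat.card_congr (Equiv.sumCompl _)
      have h7 : Nat.card {a : F // ¬ (a ≠ 0)} = 1 := by
        rw [Nat.card_eq_one_iff_unique]
        exact ⟨⟨fun x y => Subtype.ext ((not_not.1 x.2).trans (not_not.1 y.2).symm)⟩,
          ⟨⟨0, by simp⟩⟩⟩
      rw [h7] at h6
      exact h6
    have h5 := hW.iso
    set Q := Nat.card F
    set m := Nat.card {a : F // a ≠ 0}
    calc m * Q ^ (2 * g + 1) + Q * Nat.card {w : W // BW w w = 0}
        ≤ m * Q ^ (2 * g + 1) + Q * Q ^ (2 * g) :=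
          Nat.add_le_add_left (Nat.mul_le_mul_left _ h5) _
      _ = (m + 1) * Q ^ (2 * g + 1) := by ring
      _ = Q ^ (2 * (g + 1)) := by rw [h4]; ring
  refine ⟨inferInstance, hnd, hcard, hiso, ?_⟩
  -- the group
  let G := {T : V →ₗ[F] V // ∀ x y, B (T x) (T y) = B x y}
  let H := {p : V × V // B p.1 p.1 = 0 ∧ B p.2 p.2 = 0 ∧ B p.1 p.2 = 1}
  let GW := {T : W →ₗ[F] W // ∀ x y, BW (T x) (T y) = BW x y}
  let π : G → H := fun T => ⟨(T.1 e, T.1 f), by
    refine ⟨?_, ?_, ?_⟩ <;> simp only [T.2, he, hf, hef]⟩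
  have hTinj : ∀ T : G, Function.Injective T.1 := by
    intro T
    rw [injective_iff_map_eq_zero]
    intro x hx
    apply hnd
    intro y
    rw [← T.2, hx, map_zero, LinearMap.zero_apply]
  haveI : FiniteDimensional F V := Module.Finite.of_finite
  let E : G → (V ≃ₗ[F] V) := fun T => LinearEquiv.ofInjectiveEndo T.1 (hTinj T)
  have hE : ∀ T : G, ∀ x, E T x = T.1 x := fun T x => rfl
  -- relative element
  let rel : G → G → (W →ₗ[F] W) := fun T0 T =>
    (LinearMap.snd F F W ∘ₗ LinearMap.snd F F (F × W)) ∘ₗ φ.symm.toLinearMap ∘ₗ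
      (E T0).symm.toLinearMap ∘ₗ T.1 ∘ₗ i
  have hrel : ∀ T0 T : G, π T0 = π T → ∀ w, T0.1 (i (rel T0 T w)) = T.1 (i w) := by
    intro T0 T hπ w
    have hπ1 : T0.1 e = T.1 e := congrArg (fun q : H => q.1.1) hπ
    have hπ2 : T0.1 f = T.1 f := congrArg (fun q : H => q.1.2) hπ
    obtain ⟨⟨a, b, w'⟩, hD⟩ := hsur ((E T0).symm (T.1 (i w)))
    have h1 : T0.1 (φ0 (a, b, w')) = T.1 (i w) := by
      rw [hD]
      exact (E T0).apply_symm_apply _
    have hb : b = 0 := by
      rw [← hBe a b w', ← T0.2, h1, hπ1, T.2, hei]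
    have ha : a = 0 := by
      rw [← hBf a b w', ← T0.2, h1, hπ2, T.2, hfi]
    have h3 : rel T0 T w = w' := by
      show (φ.symm ((E T0).symm (T.1 (i w)))).2.2 = w'
      rw [← hD]
      show (φ.symm (φ (a, b, w'))).2.2 = w'
      rw [φ.symm_apply_apply]
    rw [h3, ← h1, hφ0, ha, hb]
    simp
  have hrelB : ∀ T0 T : G, π T0 = π T → ∀ w w', BW (rel T0 T w) (rel T0 T w') = BW w w' := by
    intro T0 T hπ w w'
    rw [← hi, ← T0.2, hrel T0 T hπ, hrel T0 T hπ, T.2, hi]
  haveI : Nonempty G := ⟨⟨LinearMap.id, fun x y => rfl⟩⟩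
  have hσ : ∀ T, π (Function.invFun π (π T)) = π T := fun T => Function.invFun_eq ⟨T, rfl⟩
  haveI : Finite (V →ₗ[F] V) := DFunLike.finite _
  haveI : Finite (W →ₗ[F] W) := DFunLike.finite _
  have hGH : Nat.card G ≤ Nat.card H * Nat.card GW := by
    rw [← Nat.card_prod]
    refine Nat.card_le_card_of_injective
      (fun T => ((π T, ⟨rel (Function.invFun π (π T)) T, hrelB _ _ (hσ T)⟩) : H × GW)) ?_
    intro T T' h
    simp only [Prod.mk.injEq, Subtype.mk.injEq] at h
    obtain ⟨hπ, hr⟩ := h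
    have h1 : T.1 e = T'.1 e := congrArg (fun q : H => q.1.1) hπ
    have h3 : T.1 f = T'.1 f := congrArg (fun q : H => q.1.2) hπ
    have hr' : rel (Function.invFun π (π T)) T = rel (Function.invFun π (π T')) T' :=
      congrArg Subtype.val hr
    have h4 : ∀ w, T.1 (i w) = T'.1 (i w) := by
      intro w
      rw [← hrel _ _ (hσ T), ← hrel _ _ (hσ T'), hr', hπ]
    apply Subtype.ext
    apply LinearMap.ext
    intro v
    obtain ⟨a, b, w, rfl⟩ := hsp v
    simp only [map_add, map_smul, h1, h3, h4]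
  have hH : Nat.card H ≤ Nat.card F ^ (4 * g + 3) := by
    have h1 := hyp_card h2 B hs
    have h3 : Nat.card H * (Nat.card F * Nat.card F) ≤
        Nat.card F ^ (4 * g + 3) * (Nat.card F * Nat.card F) := by
      refine h1.trans ?_
      rw [hcard]
      refine (Nat.mul_le_mul_right _ hiso).trans (le_of_eq ?_)
      ring
    exact Nat.le_of_mul_le_mul_right h3 (Nat.mul_pos hQ hQ)
  refine hGH.trans ((Nat.mul_le_mul hH hW.grp).trans (le_of_eq ?_))
  ring

end abst

section conc

variable {F : Type} [Field F]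

/-- The form. -/
noncomputable def Bf (F : Type) [Field F] (g : ℕ) :
    (Fin (2 * g + 1) → F) →ₗ[F] (Fin (2 * g + 1) → F) →ₗ[F] F :=
  Matrix.toLinearMap₂' F (Pool.Agent.N352.PJ.Jm g F)

theorem Bf_apply (g : ℕ) (x y : Fin (2 * g + 1) → F) :
    Bf F g x y = ∑ j, x j * y (Fin.rev j) := by
  rw [Bf, Matrix.toLinearMap₂'_apply', dotProduct]
  refine Finset.sum_congr rfl fun j _ => ?_
  congr 1
  rw [Matrix.mulVec, dotProduct, Finset.sum_eq_single (Fin.rev j)]
  · simp [Pool.Agent.N352.PJ.Jm]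
  · intro b _ hb
    simp [Pool.Agent.N352.PJ.Jm, hb]
  · intro h
    exact absurd (Finset.mem_univ _) h

theorem Bf_symm (g : ℕ) (x y : Fin (2 * g + 1) → F) : Bf F g x y = Bf F g y x := by
  rw [Bf_apply, Bf_apply]
  refine Fintype.sum_equiv Fin.revPerm _ _ fun j => ?_
  rw [Fin.revPerm_apply, Fin.rev_rev, mul_comm]

/-- The inclusion of the middle part. -/
noncomputable def mid (F : Type) [Field F] (g : ℕ) :
    (Fin (2 * g + 1) → F) →ₗ[F] (Fin (2 * (g + 1) + 1) → F) :=
  LinearMap.pi fun j => if h : 1 ≤ j.1 ∧ j.1 ≤ 2 * g + 1 then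
    LinearMap.proj (⟨j.1 - 1, by omega⟩ : Fin (2 * g + 1)) else 0

theorem mid_zero (g : ℕ) (w : Fin (2 * g + 1) → F) (j : Fin (2 * (g + 1) + 1))
    (h : ¬ (1 ≤ j.1 ∧ j.1 ≤ 2 * g + 1)) : mid F g w j = 0 := by
  rw [mid, LinearMap.pi_apply, dif_neg h, LinearMap.zero_apply]

theorem mid_eq (g : ℕ) (w : Fin (2 * g + 1) → F) (j : Fin (2 * (g + 1) + 1))
    (h : 1 ≤ j.1 ∧ j.1 ≤ 2 * g + 1) : mid F g w j = w ⟨j.1 - 1, by omega⟩ := by
  rw [mid, LinearMap.pi_apply, dif_pos h, LinearMap.proj_apply]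

theorem Bf_succ (g : ℕ) (x y : Fin (2 * (g + 1) + 1) → F) :
    Bf F (g + 1) x y = x 0 * y (Fin.last _) + x (Fin.last _) * y 0 +
      ∑ j : Fin (2 * g + 1), x ⟨j.1 + 1, by omega⟩ * y ⟨2 * g + 1 - j.1, by omega⟩ := by
  rw [Bf_apply]
  have h1 : ∀ z : Fin (2 * g + 1 + 1 + 1) → F, ∑ j, z j = z 0 + z (Fin.last _) +
      ∑ j : Fin (2 * g + 1), z ⟨j.1 + 1, by omega⟩ := by
    intro z
    rw [Fin.sum_univ_succ, Fin.sum_univ_castSucc]
    have : ∀ j : Fin (2 * g + 1), z (Fin.succ (Fin.castSucc j)) = z ⟨j.1 + 1, by omega⟩ := by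
      intro j
      rfl
    simp only [this, Fin.succ_last]
    ring
  refine (h1 _).trans ?_
  congr 1
  · congr 1
    congr 2
    exact Fin.rev_last _
  · refine Finset.sum_congr rfl fun j _ => ?_
    congr 2
    apply Fin.ext
    simp only [Fin.val_rev]
    omega

theorem base [Finite F] (h2 : (2 : F) ≠ 0) : QP (Bf F 0) 0 := by
  have hB : ∀ x y : Fin (2 * 0 + 1) → F, Bf F 0 x y = x 0 * y 0 := by
    intro x y
    rw [Bf_apply]
    simp
  have hx : ∀ x : Fin (2 * 0 + 1) → F, x = fun _ => x 0 := by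
    intro x
    funext j
    have : j = 0 := Subsingleton.elim (α := Fin 1) _ _
    rw [this]
  refine ⟨inferInstance, ?_, ?_, ?_, ?_⟩
  · intro x h
    have h1 := h (fun _ => 1)
    rw [hB, mul_one] at h1
    rw [hx x, h1]
    rfl
  · rw [Nat.card_fun]
    simp
  · simp only [mul_zero, pow_zero]
    rw [Finite.card_le_one_iff_subsingleton]
    refine ⟨fun x y => ?_⟩
    have key : ∀ z : {x : Fin (2 * 0 + 1) → F // Bf F 0 x x = 0}, z.1 = 0 := by
      intro z
      have h1 := z.2
      rw [hB, mul_self_eq_zero] at h1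
      rw [hx z.1, h1]
      rfl
    exact Subtype.ext ((key x).trans (key y).symm)
  · simp only [zero_mul, pow_zero, mul_one]
    let u : Fin (2 * 0 + 1) → F := fun _ => 1
    have h1 : Nat.card {T : (Fin (2 * 0 + 1) → F) →ₗ[F] (Fin (2 * 0 + 1) → F) //
        ∀ x y, Bf F 0 (T x) (T y) = Bf F 0 x y} ≤ Nat.card Bool := by
      refine Nat.card_le_card_of_injective (fun T => decide (T.1 u 0 = 1)) ?_
      intro T T' h
      have key : ∀ S : {T : (Fin (2 * 0 + 1) → F) →ₗ[F] (Fin (2 * 0 + 1) → F) //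
        ∀ x y, Bf F 0 (T x) (T y) = Bf F 0 x y}, S.1 u 0 = 1 ∨ S.1 u 0 = -1 := by
        intro S
        have h3 := S.2 u u
        rw [hB, hB] at h3
        have h4 : S.1 u 0 * S.1 u 0 = 1 := by rw [h3]; simp [u]
        exact mul_self_eq_one_iff.1 h4
      have hne : (-1 : F) ≠ 1 := by
        intro h5
        apply h2
        have : (2 : F) = 1 - (-1) := by ring
        rw [this, h5, sub_self]
      have h5 : T.1 u 0 = T'.1 u 0 := by
        simp only [decide_eq_decide] at h
        rcases key T with h6 | h6 <;> rcases key T' with h7 | h7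
        · rw [h6, h7]
        · exact absurd (h.1 h6) (by rw [h7]; exact hne)
        · exact absurd (h.2 h7) (by rw [h6]; exact hne)
        · rw [h6, h7]
      have h8 : T.1 u = T'.1 u := by
        rw [hx (T.1 u), hx (T'.1 u), h5]
      apply Subtype.ext
      apply LinearMap.ext
      intro x
      have h9 : x = x 0 • u := by
        rw [hx x]
        funext j
        simp [u]
      rw [h9, map_smul, map_smul, h8]
    refine h1.trans ?_
    simp

theorem e0_eq (g : ℕ) (j : Fin (2 * (g + 1) + 1)) :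
    (Pi.single 0 1 : Fin (2 * (g + 1) + 1) → F) j = if j.1 = 0 then 1 else 0 := by
  by_cases h : j.1 = 0
  · rw [if_pos h]
    have : j = 0 := Fin.ext h
    rw [this, Pi.single_eq_same]
  · rw [if_neg h, Pi.single_eq_of_ne]
    intro h1
    exact h (congrArg Fin.val h1)

theorem el_eq (g : ℕ) (j : Fin (2 * (g + 1) + 1)) :
    (Pi.single (Fin.last _) 1 : Fin (2 * (g + 1) + 1) → F) j = if j.1 = 2 * g + 2 then 1 else 0 := by
  by_cases h : j.1 = 2 * g + 2
  · rw [if_pos h]
    have : j = Fin.last _ := Fin.ext h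
    rw [this, Pi.single_eq_same]
  · rw [if_neg h, Pi.single_eq_of_ne]
    intro h1
    exact h (congrArg Fin.val h1)

theorem val0 (g : ℕ) : (0 : Fin (2 * (g + 1) + 1)).1 = 0 := rfl

theorem vall (g : ℕ) : (Fin.last (2 * (g + 1))).1 = 2 * g + 2 := rfl

theorem all [Finite F] (h2 : (2 : F) ≠ 0) (g : ℕ) : QP (Bf F g) g := by
  induction g with
  | zero => exact base h2
  | succ g ih =>
    refine step h2 (Bf F (g + 1)) (Bf F g) g ih (Bf_symm _)
      (Pi.single 0 1) (Pi.single (Fin.last _) 1) (mid F g) ?_ ?_ ?_ ?_ ?_ ?_ ?_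
    · rw [Bf_succ, Finset.sum_eq_zero]
      · simp only [e0_eq, val0, vall]
        simp
      · intro j _
        simp only [e0_eq]
        simp
    · rw [Bf_succ, Finset.sum_eq_zero]
      · simp only [el_eq, val0, vall]
        simp
      · intro j _
        simp only [el_eq]
        rw [if_neg (by omega), zero_mul]
    · rw [Bf_succ, Finset.sum_eq_zero]
      · simp only [e0_eq, el_eq, val0, vall]
        simp
      · intro j _
        simp only [e0_eq]
        simp
    · intro w w'
      rw [Bf_succ, Bf_apply, mid_zero g w 0 (by rw [val0]; omega),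
        mid_zero g w (Fin.last _) (by rw [vall]; omega), zero_mul, zero_mul, zero_add, zero_add]
      refine Finset.sum_congr rfl fun j _ => ?_
      rw [mid_eq g w _ ⟨by simp, by simp only; omega⟩, mid_eq g w' _ ⟨by simp only; omega, by simp⟩]
      have : (⟨2 * g + 1 - j.1 - 1, by omega⟩ : Fin (2 * g + 1)) = Fin.rev j := by
        apply Fin.ext
        simp only [Fin.val_rev]
        omega
      exact congrArg₂ (fun a b => w a * w' b) rfl this
    · intro w
      rw [Bf_succ, Finset.sum_eq_zero, mid_zero g w 0 (by rw [val0]; omega),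
        mid_zero g w (Fin.last _) (by rw [vall]; omega)]
      · simp
      · intro j _
        simp only [e0_eq]
        simp
    · intro w
      rw [Bf_succ, Finset.sum_eq_zero, mid_zero g w 0 (by rw [val0]; omega),
        mid_zero g w (Fin.last _) (by rw [vall]; omega)]
      · simp
      · intro j _
        simp only [el_eq]
        rw [if_neg (by omega), zero_mul]
    · intro v
      refine ⟨v 0, v (Fin.last _), fun j => v ⟨j.1 + 1, by omega⟩, ?_⟩
      funext j
      simp only [Pi.add_apply, Pi.smul_apply, smul_eq_mul, e0_eq, el_eq]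
      by_cases h0 : j.1 = 0
      · rw [mid_zero g _ j (by omega), if_pos h0, if_neg (by omega)]
        have : j = 0 := Fin.ext h0
        rw [this]
        ring
      · by_cases h1 : j.1 = 2 * g + 2
        · rw [mid_zero g _ j (by omega), if_neg h0, if_pos h1]
          have : j = Fin.last _ := Fin.ext h1
          rw [this]
          ring
        · rw [mid_eq g _ j (by omega), if_neg h0, if_neg h1]
          have : (⟨j.1 - 1 + 1, by omega⟩ : Fin (2 * (g + 1) + 1)) = j := by
            apply Fin.ext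
            simp only
            omega
          rw [this]
          ring

end conc

/-- The order of the orthogonal group over a finite field. -/
theorem on : Pool.Agent.N352.PJ.S_ON := by
  intro g F _ _ h2
  refine le_trans ?_ (all h2 g).grp
  haveI : Finite ((Fin (2 * g + 1) → F) →ₗ[F] (Fin (2 * g + 1) → F)) := DFunLike.finite _
  have key : ∀ M : Pool.Agent.N352.PJ.Mt g F,
      Mᵀ * Pool.Agent.N352.PJ.Jm g F * M = Pool.Agent.N352.PJ.Jm g F →
      ∀ x y, Bf F g (Matrix.toLin' M x) (Matrix.toLin' M y) = Bf F g x y := by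
    intro M hM x y
    simp only [Bf, Matrix.toLinearMap₂'_apply', Matrix.toLin'_apply]
    conv_rhs => rw [← hM]
    rw [Matrix.mul_assoc, ← Matrix.mulVec_mulVec, ← Matrix.mulVec_mulVec, Matrix.dotProduct_mulVec x Mᵀ,
      Matrix.vecMul_transpose]
  refine Nat.card_le_card_of_injective
    (fun M => ⟨Matrix.toLin' M.1, key M.1 M.2⟩) ?_
  intro M M' h
  simp only [Subtype.mk.injEq] at h
  exact Subtype.ext (Matrix.toLin'.injective h)

end Pool.Agent.N697.PJ
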